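import Pool.Agent.Helper93.RC.Spec

/-!
# Closed walks `ZMod (k+5) → Fin n` and their edge sets
-/

namespace Pool.Agent.Helper40.RC

open Pool.Agent.Helper93.RC Finset
open scoped Classical

variable {n : ℕ}

theorem two_ne (k : ℕ) : (2 : ZMod (k + 5)) ≠ 0 := by
  intro h
  have h2 : ((2 : ℕ) : ZMod (k + 5)) = 0 := by exact_mod_cast h
  rw [ZMod.natCast_eq_zero_iff] at h2
  have := Nat.le_of_dvd (by norm_num) h2
  omega

theorem one_ne (k : ℕ) : (1 : ZMod (k + 5)) ≠ 0 := by
  intro h
  apply two_ne k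
  have : (2 : ZMod (k + 5)) = 1 + 1 := by norm_num
  rw [this, h, add_zero]

theorem three_ne (k : ℕ) : (3 : ZMod (k + 5)) ≠ 0 := by
  intro h
  have h2 : ((3 : ℕ) : ZMod (k + 5)) = 0 := by exact_mod_cast h
  rw [ZMod.natCast_eq_zero_iff] at h2
  have := Nat.le_of_dvd (by norm_num) h2
  omega

theorem four_ne (k : ℕ) : (4 : ZMod (k + 5)) ≠ 0 := by
  intro h
  have h2 : ((4 : ℕ) : ZMod (k + 5)) = 0 := by exact_mod_cast h
  rw [ZMod.natCast_eq_zero_iff] at h2
  have := Nat.le_of_dvd (by norm_num) h2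
  omega

/-- the edge at position `a` -/
def eg {k : ℕ} (f : ZMod (k + 5) → Fin n) (a : ZMod (k + 5)) : Sym2 (Fin n) := s(f a, f (a + 1))

/-- the edge set of a closed walk -/
noncomputable def ed {k : ℕ} (f : ZMod (k + 5) → Fin n) : Finset (Sym2 (Fin n)) :=
  univ.image (eg f)

/-- the vertex set of a closed walk -/
noncomputable def vs {k : ℕ} (f : ZMod (k + 5) → Fin n) : Finset (Fin n) := univ.image f

theorem mem_vs {k : ℕ} {f : ZMod (k + 5) → Fin n} {x : Fin n} : x ∈ vs f ↔ ∃ a, f a = x := by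
  simp [vs]

theorem mem_ed {k : ℕ} {f : ZMod (k + 5) → Fin n} {e : Sym2 (Fin n)} :
    e ∈ ed f ↔ ∃ a, eg f a = e := by
  simp [ed]

theorem eg_inj {k : ℕ} {f : ZMod (k + 5) → Fin n} (hf : Function.Injective f) :
    Function.Injective (eg f) := by
  intro a b h
  rw [eg, eg, Sym2.eq_iff] at h
  rcases h with ⟨h1, _⟩ | ⟨h1, h2⟩
  · exact hf h1
  · have h3 := hf h1
    have h4 := hf h2
    exfalso
    apply two_ne k
    have : b + 2 = b + 0 := by
      calc b + 2 = (b + 1) + 1 := by ring
        _ = b := by rw [← h3, h4]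
        _ = b + 0 := by ring
    exact add_left_cancel this

theorem card_ed {k : ℕ} {f : ZMod (k + 5) → Fin n} (hf : Function.Injective f) :
    (ed f).card = k + 5 := by
  rw [ed, card_image_of_injective _ (eg_inj hf), card_univ, ZMod.card]

theorem card_vs {k : ℕ} {f : ZMod (k + 5) → Fin n} (hf : Function.Injective f) :
    (vs f).card = k + 5 := by
  rw [vs, card_image_of_injective _ hf, card_univ, ZMod.card]

theorem ed_not_diag {k : ℕ} {f : ZMod (k + 5) → Fin n} (hf : Function.Injective f)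
    {e : Sym2 (Fin n)} (he : e ∈ ed f) : ¬ e.IsDiag := by
  obtain ⟨a, rfl⟩ := mem_ed.1 he
  simp only [eg, Sym2.mk_isDiag_iff]
  intro h
  have := hf h
  apply one_ne k
  have h2 : a + 0 = a + 1 := by rw [← this, add_zero]
  exact (add_left_cancel h2).symm

theorem mem_of_mem_ed {k : ℕ} {f : ZMod (k + 5) → Fin n} {e : Sym2 (Fin n)} (he : e ∈ ed f)
    {x : Fin n} (hx : x ∈ e) : x ∈ vs f := by
  obtain ⟨a, rfl⟩ := mem_ed.1 he
  rw [eg, Sym2.mem_iff] at hx
  rcases hx with rfl | rfl
  · exact mem_vs.2 ⟨_, rfl⟩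
  · exact mem_vs.2 ⟨_, rfl⟩

/-- the edges at a vertex -/
theorem edges_at {k : ℕ} {f : ZMod (k + 5) → Fin n} (hf : Function.Injective f)
    {e : Sym2 (Fin n)} (he : e ∈ ed f) {a : ZMod (k + 5)} (hx : f a ∈ e) :
    e = eg f a ∨ e = eg f (a - 1) := by
  obtain ⟨b, rfl⟩ := mem_ed.1 he
  rw [eg, Sym2.mem_iff] at hx
  rcases hx with h | h
  · left; rw [hf h]
  · right; rw [hf h]; congr 1; ring

theorem zmod_induct {k : ℕ} {P : ZMod (k + 5) → Prop} {a : ZMod (k + 5)} (h0 : P a)
    (hs : ∀ b, P b → P (b + 1)) : ∀ b, P b := by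
  have key : ∀ t : ℕ, P (a + t) := by
    intro t
    induction t with
    | zero => simpa using h0
    | succ t ih =>
      have := hs _ ih
      push_cast
      rwa [← add_assoc]
  intro b
  have := key (b - a).val
  rw [ZMod.natCast_zmod_val] at this
  simpa using this

theorem zmod_induct' {k : ℕ} {P : ZMod (k + 5) → Prop} {a : ZMod (k + 5)} (h0 : P a)
    (hs : ∀ b, P (b + 1) → P b) : ∀ b, P b := by
  by_contra hcon
  push Not at hcon
  obtain ⟨b, hb⟩ := hcon
  have := zmod_induct (P := fun b => ¬ P b) (a := b) hb (fun c hc h => hc (hs c h)) a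
  exact this h0

/-- a closed injective walk is determined by its edges and the first two vertices -/
theorem walk_det {k : ℕ} {f g : ZMod (k + 5) → Fin n} (hf : Function.Injective f)
    (hg : Function.Injective g) (he : ed f = ed g) (h0 : f 0 = g 0) (h1 : f 1 = g 1) :
    f = g := by
  have key : ∀ a : ZMod (k + 5), f a = g a ∧ f (a + 1) = g (a + 1) := by
    refine zmod_induct (P := fun a => f a = g a ∧ f (a + 1) = g (a + 1)) (a := 0) ?_ ?_
    · exact ⟨h0, by simpa using h1⟩
    · rintro a ⟨ha, hb⟩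
      refine ⟨hb, ?_⟩
      have hmem : eg f (a + 1) ∈ ed g := by rw [← he]; exact mem_ed.2 ⟨_, rfl⟩
      have hx : g (a + 1) ∈ eg f (a + 1) := by rw [← hb, eg]; exact Sym2.mem_mk_left _ _
      rcases edges_at hg hmem hx with h | h
      · rw [eg, eg, ← hb] at h
        exact Sym2.congr_right.1 h
      · exfalso
        have h2 : eg g (a + 1 - 1) = eg f a := by
          rw [eg, eg, add_sub_cancel_right, ha, hb]
        rw [h2] at h
        have := eg_inj hf h
        apply one_ne k
        have h3 : a + 1 = a + 0 := by rw [this, add_zero]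
        exact add_left_cancel h3
  funext a
  exact (key a).1

/-- there are at most `2 (k + 5)` parametrisations of a cycle -/
theorem card_par {k : ℕ} (f : ZMod (k + 5) ↪ Fin n) :
    ((univ : Finset (ZMod (k + 5) ↪ Fin n)).filter fun g : ZMod (k + 5) ↪ Fin n => ed (k := k) g = ed (k := k) f).card ≤ 2 * (k + 5) := by
  let Φ : ZMod (k + 5) × Bool → Fin n × Fin n := fun x =>
    if x.2 then (f x.1, f (x.1 + 1)) else (f (x.1 + 1), f x.1)
  have h1 : ((univ : Finset (ZMod (k + 5) ↪ Fin n)).filter fun g : ZMod (k + 5) ↪ Fin n => ed (k := k) g = ed (k := k) f).card ≤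
      ((univ : Finset (ZMod (k + 5) × Bool)).image Φ).card := by
    apply card_le_card_of_injOn (fun g => (g 0, g 1))
    · intro g hg
      have hg' := (mem_filter.1 hg).2
      have : eg (k := k) g 0 ∈ ed (k := k) f := by rw [← hg']; exact mem_ed.2 ⟨_, rfl⟩
      obtain ⟨a, ha⟩ := mem_ed.1 this
      rw [eg, eg, Sym2.eq_iff] at ha
      simp only [coe_image, coe_univ, Set.image_univ, Set.mem_range]
      rcases ha with ⟨h1, h2⟩ | ⟨h1, h2⟩
      · exact ⟨(a, true), by simp [Φ, h1, h2]⟩
      · exact ⟨(a, false), by simp [Φ, h1, h2]⟩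
    · intro g hg g' hg' h
      simp only [Prod.mk.injEq] at h
      have e1 := (mem_filter.1 hg).2
      have e2 := (mem_filter.1 hg').2
      apply DFunLike.coe_injective
      exact walk_det g.injective g'.injective (e1.trans e2.symm) h.1 h.2
  refine h1.trans (card_image_le.trans ?_)
  rw [card_univ, Fintype.card_prod, ZMod.card, Fintype.card_bool]
  omega

/-- a cycle contained in another one is equal to it -/
theorem ed_subset {k l : ℕ} {f : ZMod (k + 5) → Fin n} {g : ZMod (l + 5) → Fin n}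
    (hf : Function.Injective f) (hg : Function.Injective g) (h : ed g ⊆ ed f) : ed g = ed f := by
  apply Subset.antisymm h
  obtain ⟨a, ha⟩ := mem_ed.1 (h (mem_ed.2 ⟨0, rfl⟩ : eg g 0 ∈ ed g))
  have key : ∀ b, eg f b ∈ ed g := by
    refine zmod_induct (P := fun b => eg f b ∈ ed g) (a := a) ?_ ?_
    · rw [ha]; exact mem_ed.2 ⟨0, rfl⟩
    · intro b hb
      have hv : f (b + 1) ∈ vs g := mem_of_mem_ed hb (by rw [eg]; exact Sym2.mem_mk_right _ _)
      obtain ⟨c, hc⟩ := mem_vs.1 hv
      have h1 : eg g c ∈ ed f := h (mem_ed.2 ⟨_, rfl⟩)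
      have h2 : eg g (c - 1) ∈ ed f := h (mem_ed.2 ⟨_, rfl⟩)
      have m1 : f (b + 1) ∈ eg g c := by rw [← hc, eg]; exact Sym2.mem_mk_left _ _
      have m2 : f (b + 1) ∈ eg g (c - 1) := by
        rw [← hc, eg, sub_add_cancel]; exact Sym2.mem_mk_right _ _
      rcases edges_at hf h1 m1 with e1 | e1
      · rw [← e1]; exact mem_ed.2 ⟨_, rfl⟩
      · rcases edges_at hf h2 m2 with e2 | e2
        · rw [← e2]; exact mem_ed.2 ⟨_, rfl⟩
        · exfalso
          have := eg_inj hg (e1.trans e2.symm)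
          apply one_ne k
          have h3 : c - 1 + 1 = c - 1 + 0 := by rw [sub_add_cancel, add_zero, ← this]
          have h4 := add_left_cancel h3
          exact absurd h4 (one_ne l)
  intro e he
  obtain ⟨b, rfl⟩ := mem_ed.1 he
  exact key b

/-- two different cycles with a common vertex: more edges than vertices -/
theorem union_card {k l : ℕ} {f : ZMod (k + 5) → Fin n} {g : ZMod (l + 5) → Fin n}
    (hf : Function.Injective f) (hg : Function.Injective g) (hne : ed g ≠ ed f)
    (hv : ∃ x, x ∈ vs f ∧ x ∈ vs g) : (vs f ∪ vs g).card + 1 ≤ (ed f ∪ ed g).card := by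
  have h1 : (vs f ∪ vs g).card = (k + 5) + (vs g \ vs f).card := by
    rw [← card_vs hf, ← union_sdiff_self_eq_union, card_union_of_disjoint disjoint_sdiff]
  have h2 : (ed f ∪ ed g).card = (k + 5) + (ed g \ ed f).card := by
    rw [← card_ed hf, ← union_sdiff_self_eq_union, card_union_of_disjoint disjoint_sdiff]
  rw [h1, h2]
  set W : Finset (ZMod (l + 5)) := univ.filter fun b => g b ∉ vs f with hW
  have hWc : (vs g \ vs f).card ≤ W.card := by
    have : vs g \ vs f ⊆ W.image g := by
      intro x hx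
      obtain ⟨hx1, hx2⟩ := mem_sdiff.1 hx
      obtain ⟨b, rfl⟩ := mem_vs.1 hx1
      exact mem_image.2 ⟨b, by simp [hW, hx2], rfl⟩
    exact (card_le_card this).trans card_image_le
  have hE : W.card + 1 ≤ (ed g \ ed f).card := by
    rcases W.eq_empty_or_nonempty with h0 | ⟨b, hb⟩
    · rw [h0, card_empty, zero_add, Nat.one_le_iff_ne_zero, Ne, card_eq_zero,
        sdiff_eq_empty_iff_subset]
      intro hsub
      exact hne (ed_subset hf hg hsub)
    · have hc : ∃ c, c ∉ W ∧ c + 1 ∈ W := by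
        by_contra hcon
        push Not at hcon
        obtain ⟨x, hx1, hx2⟩ := hv
        obtain ⟨d, rfl⟩ := mem_vs.1 hx2
        have hd : d ∈ W := by
          apply zmod_induct' (P := fun b => b ∈ W) (a := b) hb
          intro c hc
          by_contra hcW
          exact hcon c hcW hc
        simp [hW, hx1] at hd
      obtain ⟨c, hc1, hc2⟩ := hc
      have : (insert c W).image (eg g) ⊆ ed g \ ed f := by
        intro e he
        obtain ⟨d, hd, rfl⟩ := mem_image.1 he
        refine mem_sdiff.2 ⟨mem_ed.2 ⟨_, rfl⟩, fun hmem => ?_⟩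
        rcases mem_insert.1 hd with rfl | hd
        · have := mem_of_mem_ed hmem (x := g (d + 1)) (by rw [eg]; exact Sym2.mem_mk_right _ _)
          simp [hW, this] at hc2
        · have := mem_of_mem_ed hmem (x := g d) (by rw [eg]; exact Sym2.mem_mk_left _ _)
          simp [hW, this] at hd
      calc W.card + 1 = (insert c W).card := (card_insert_of_notMem hc1).symm
        _ = ((insert c W).image (eg g)).card := (card_image_of_injective _ (eg_inj hg)).symm
        _ ≤ _ := card_le_card this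
  omega

/-- disjoint vertex sets give disjoint edge sets -/
theorem ed_disjoint {k l : ℕ} {f : ZMod (k + 5) → Fin n} {g : ZMod (l + 5) → Fin n}
    (hv : ¬ ∃ x, x ∈ vs f ∧ x ∈ vs g) : Disjoint (ed f) (ed g) := by
  rw [disjoint_left]
  intro e h1 h2
  apply hv
  obtain ⟨a, rfl⟩ := mem_ed.1 h1
  have hx : f a ∈ eg f a := by rw [eg]; exact Sym2.mem_mk_left _ _
  exact ⟨f a, mem_of_mem_ed h1 hx, mem_of_mem_ed h2 hx⟩

/-- number of pairs with a given number of vertices -/
theorem card_pairs (k l v : ℕ) :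
    ((univ : Finset ((ZMod (k + 5) ↪ Fin n) × (ZMod (l + 5) ↪ Fin n))).filter fun x =>
      (vs (k := k) x.1 ∪ vs (k := l) x.2).card = v).card ≤ n ^ v * (v ^ (k + 5) * v ^ (l + 5)) := by
  let Ψ : (Fin v → Fin n) × ((ZMod (k + 5) → Fin v) × (ZMod (l + 5) → Fin v)) →
      (ZMod (k + 5) → Fin n) × (ZMod (l + 5) → Fin n) := fun x =>
    (fun a => x.1 (x.2.1 a), fun a => x.1 (x.2.2 a))
  have h1 : ((univ : Finset ((ZMod (k + 5) ↪ Fin n) × (ZMod (l + 5) ↪ Fin n))).filter fun x =>
      (vs (k := k) x.1 ∪ vs (k := l) x.2).card = v).card ≤ (univ.image Ψ).card := by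
    apply card_le_card_of_injOn (fun x => ((x.1 : ZMod (k + 5) → Fin n),
      (x.2 : ZMod (l + 5) → Fin n)))
    · rintro ⟨f, g⟩ hx
      have hx' := (mem_filter.1 hx).2
      simp only at hx'
      let e := Finset.equivFinOfCardEq hx'
      simp only [coe_image, coe_univ, Set.image_univ, Set.mem_range]
      refine ⟨(fun t => (e.symm t : Fin n), (fun a => e ⟨f a, mem_union_left _ (mem_vs.2 ⟨a, rfl⟩)⟩,
        fun a => e ⟨g a, mem_union_right _ (mem_vs.2 ⟨a, rfl⟩)⟩)), ?_⟩
      simp [Ψ]
    · rintro ⟨f, g⟩ _ ⟨f', g'⟩ _ h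
      simp only [Prod.mk.injEq] at h
      rw [Prod.mk.injEq]
      exact ⟨DFunLike.coe_injective h.1, DFunLike.coe_injective h.2⟩
  refine h1.trans (card_image_le.trans ?_)
  rw [card_univ, Fintype.card_prod, Fintype.card_prod]
  simp [ZMod.card]

end Pool.Agent.Helper40.RC
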