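import Pool.Agent.Helper40.RC.Cyc

/-!
# Module P5: the range `1 ≤ n p ≤ A`
-/

namespace Pool.Agent.Helper40.RC

open Pool.Agent.Helper93.RC Finset
open scoped Classical

variable {n : ℕ} {p : ℝ}

/-! ### Expectation -/

theorem Ex_add' (f g : SimpleGraph (Fin n) → ℝ) :
    Ex n p (fun G => f G + g G) = Ex n p f + Ex n p g := by
  simp only [Ex, mul_add, sum_add_distrib]

theorem Ex_sum' {ι : Type*} (s : Finset ι) (f : ι → SimpleGraph (Fin n) → ℝ) :
    Ex n p (fun G => ∑ i ∈ s, f i G) = ∑ i ∈ s, Ex n p (f i) := by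
  simp only [Ex, mul_sum]
  rw [sum_comm]

theorem Ex_mul' (c : ℝ) (f : SimpleGraph (Fin n) → ℝ) :
    Ex n p (fun G => c * f G) = c * Ex n p f := by
  simp only [Ex, mul_sum]
  exact sum_congr rfl fun G _ => by ring

theorem wt_nonneg' (h0 : 0 ≤ p) (h1 : p ≤ 1) (G : SimpleGraph (Fin n)) : 0 ≤ wt n p G := by
  rw [wt]
  have : 0 ≤ 1 - p := by linarith
  positivity

theorem Ex_mono' (h0 : 0 ≤ p) (h1 : p ≤ 1) {f g : SimpleGraph (Fin n) → ℝ}
    (h : ∀ G, f G ≤ g G) : Ex n p f ≤ Ex n p g :=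
  sum_le_sum fun G _ => mul_le_mul_of_nonneg_left (h G) (wt_nonneg' h0 h1 G)

/-- all edges of `F` are present -/
noncomputable def iF (F : Finset (Sym2 (Fin n))) (G : SimpleGraph (Fin n)) : ℝ :=
  if ∀ e ∈ F, e ∈ G.edgeSet then 1 else 0

theorem iF_nonneg (F : Finset (Sym2 (Fin n))) (G : SimpleGraph (Fin n)) : 0 ≤ iF F G := by
  rw [iF]; split_ifs <;> norm_num

theorem iF_mul (F F' : Finset (Sym2 (Fin n))) (G : SimpleGraph (Fin n)) :
    iF F G * iF F' G = iF (F ∪ F') G := by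
  simp only [iF, mem_union]
  by_cases h : ∀ e ∈ F, e ∈ G.edgeSet
  · by_cases h' : ∀ e ∈ F', e ∈ G.edgeSet
    · rw [if_pos h, if_pos h', if_pos, mul_one]
      rintro e (he | he)
      · exact h e he
      · exact h' e he
    · have h3 : ¬ ∀ e, (e ∈ F ∨ e ∈ F') → e ∈ G.edgeSet :=
        fun h2 => h' fun e he => h2 e (Or.inr he)
      rw [if_neg h', if_neg h3, mul_zero]
  · have h3 : ¬ ∀ e, (e ∈ F ∨ e ∈ F') → e ∈ G.edgeSet :=
      fun h2 => h fun e he => h2 e (Or.inl he)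
    rw [if_neg h, if_neg h3, zero_mul]

theorem Ex_iF (h0b : ST_P0b) (h0c : ST_P0c) (F : Finset (Sym2 (Fin n)))
    (hF : ∀ e ∈ F, ¬ e.IsDiag) : Ex n p (iF F) = p ^ F.card := by
  have h1 : iF F = fun G : SimpleGraph (Fin n) =>
      ∏ e ∈ F, (fun e (G : SimpleGraph (Fin n)) => if e ∈ G.edgeSet then (1 : ℝ) else 0) e G := by
    funext G
    simp only [iF]
    rw [Finset.prod_ite_zero]
    simp
  rw [h1, h0b n p (Sym2 (Fin n)) F _ (fun e => {e})]
  · rw [prod_congr rfl (fun e he => h0c n p e (hF e he)), prod_const]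
  · intro e _ G G' h
    have := h e (Set.mem_singleton e)
    simp only [this]
  · intro a _ b _ hab
    exact Set.disjoint_singleton.2 hab

/-! ### Index set -/

/-- indices: injective closed walks of length `k + 5` -/
abbrev Idx (n : ℕ) : Type := Σ k : ℕ, (ZMod (k + 5) ↪ Fin n)

/-- edge set of an index -/
noncomputable def E (i : Idx n) : Finset (Sym2 (Fin n)) := ed (k := i.1) i.2

/-- vertex set of an index -/
noncomputable def Vt (i : Idx n) : Finset (Fin n) := vs (k := i.1) i.2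

/-- indices with `k < K` -/
noncomputable def S (n K : ℕ) : Finset (Idx n) := (range K).sigma fun _ => univ

/-- the weight -/
noncomputable def w (k : ℕ) : ℝ := 1 / (2 * ((k : ℝ) + 5))

theorem w_pos (k : ℕ) : 0 < w k := by unfold w; positivity

theorem w_le (k : ℕ) : w k ≤ 1 := by
  unfold w
  rw [div_le_one (by positivity)]
  have : (0 : ℝ) ≤ k := Nat.cast_nonneg k
  linarith

theorem cardE (i : Idx n) : (E i).card = i.1 + 5 := card_ed i.2.injective

/-- the expected weighted number of cycles -/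
noncomputable def mu (n K : ℕ) (p : ℝ) : ℝ := ∑ i ∈ S n K, w i.1 * p ^ (i.1 + 5)

/-- the weighted number of cycles -/
noncomputable def X (K : ℕ) (G : SimpleGraph (Fin n)) : ℝ := ∑ i ∈ S n K, w i.1 * iF (E i) G

theorem Ex_X (h0b : ST_P0b) (h0c : ST_P0c) (K : ℕ) : Ex n p (X K) = mu n K p := by
  have : (X K : SimpleGraph (Fin n) → ℝ) = fun G => ∑ i ∈ S n K, w i.1 * iF (E i) G := rfl
  rw [this, Ex_sum', mu]
  refine sum_congr rfl fun i _ => ?_
  rw [Ex_mul', Ex_iF h0b h0c (E i) (fun e he => ed_not_diag i.2.injective he), cardE]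

theorem Ex_XX (h0b : ST_P0b) (h0c : ST_P0c) (K : ℕ) : Ex n p (fun G => X K G * X K G) =
    ∑ i ∈ S n K, ∑ j ∈ S n K, w i.1 * w j.1 * p ^ (E i ∪ E j).card := by
  have : (fun G : SimpleGraph (Fin n) => X K G * X K G) = fun G => ∑ i ∈ S n K, ∑ j ∈ S n K,
      w i.1 * w j.1 * iF (E i ∪ E j) G := by
    funext G
    rw [X, sum_mul_sum]
    refine sum_congr rfl fun i _ => sum_congr rfl fun j _ => ?_
    rw [← iF_mul]; ring
  rw [this, Ex_sum']
  refine sum_congr rfl fun i _ => ?_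
  rw [Ex_sum']
  refine sum_congr rfl fun j _ => ?_
  rw [Ex_mul', Ex_iF h0b h0c]
  intro e he
  rcases mem_union.1 he with he | he
  · exact ed_not_diag i.2.injective he
  · exact ed_not_diag j.2.injective he

theorem pow_split (h0 : 0 ≤ p) (h1 : p ≤ 1) (i j : Idx n) :
    p ^ (E i ∪ E j).card ≤ p ^ (i.1 + 5) * p ^ (j.1 + 5) +
      (if E j = E i then p ^ (i.1 + 5) else 0) + p ^ ((Vt i ∪ Vt j).card + 1) := by
  have n1 : 0 ≤ p ^ (i.1 + 5) * p ^ (j.1 + 5) := by positivity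
  have n3 : 0 ≤ p ^ ((Vt i ∪ Vt j).card + 1) := by positivity
  have n2 : 0 ≤ (if E j = E i then p ^ (i.1 + 5) else 0) := by
    split_ifs
    · positivity
    · exact le_refl _
  by_cases hv : ∃ x, x ∈ Vt i ∧ x ∈ Vt j
  · by_cases he : E j = E i
    · rw [if_pos he, he, union_self, cardE]
      linarith
    · have := union_card i.2.injective j.2.injective he hv
      have h2 : p ^ (E i ∪ E j).card ≤ p ^ ((Vt i ∪ Vt j).card + 1) :=
        pow_le_pow_of_le_one h0 h1 this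
      linarith
  · have hd : Disjoint (E i) (E j) := ed_disjoint hv
    have h2 : (E i ∪ E j).card = (i.1 + 5) + (j.1 + 5) := by
      rw [card_union_of_disjoint hd, cardE, cardE]
    rw [h2, pow_add]
    linarith

theorem sum_w_same (K : ℕ) (i : Idx n) :
    ∑ j ∈ S n K, w j.1 * (if E j = E i then 1 else 0) ≤ 1 := by
  rw [S, sum_sigma]
  have h1 : ∀ l ∈ range K, ∑ g : ZMod (l + 5) ↪ Fin n,
      w (⟨l, g⟩ : Idx n).1 * (if E (⟨l, g⟩ : Idx n) = E i then (1 : ℝ) else 0) ≤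
      if l = i.1 then 1 else 0 := by
    intro l _
    by_cases hl : l = i.1
    · rw [if_pos hl]
      obtain ⟨k, f⟩ := i
      simp only at hl
      subst hl
      change ∑ g : ZMod (l + 5) ↪ Fin n,
        w l * (if E (⟨l, g⟩ : Idx n) = E ⟨l, f⟩ then (1 : ℝ) else 0) ≤ 1
      rw [← mul_sum, sum_boole]
      have h2 := card_par f
      have h3 : ((((univ : Finset (ZMod (l + 5) ↪ Fin n)).filter fun g =>
          E (⟨l, g⟩ : Idx n) = E ⟨l, f⟩).card : ℕ) : ℝ) ≤ 2 * ((l : ℝ) + 5) := by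
        have : (((univ : Finset (ZMod (l + 5) ↪ Fin n)).filter fun g =>
          E (⟨l, g⟩ : Idx n) = E ⟨l, f⟩).card : ℕ) ≤ 2 * (l + 5) := h2
        exact_mod_cast this
      have hw : w l * (2 * ((l : ℝ) + 5)) = 1 := by
        unfold w
        rw [one_div, inv_mul_cancel₀]
        positivity
      calc w l * _ ≤ w l * (2 * ((l : ℝ) + 5)) := mul_le_mul_of_nonneg_left h3 (w_pos l).le
        _ = 1 := hw
    · rw [if_neg hl]
      apply le_of_eq
      apply sum_eq_zero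
      intro g _
      rw [if_neg, mul_zero]
      intro h
      apply hl
      have := congrArg Finset.card h
      rw [cardE, cardE] at this
      simpa using this
  refine (sum_le_sum h1).trans ?_
  rw [sum_ite_eq']
  split_ifs <;> norm_num

/-- the constant -/
noncomputable def Cc (K : ℕ) (A : ℝ) : ℝ := ∑ k ∈ range K, ∑ l ∈ range K,
  ∑ v ∈ range (k + l + 11), ((v : ℝ) ^ (k + 5) * (v : ℝ) ^ (l + 5)) * A ^ (v + 1)

theorem npow {A : ℝ} (hn : 0 < n) (h0 : 0 < p) (hA : (n : ℝ) * p ≤ A) (v : ℕ) :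
    (n : ℝ) ^ v * p ^ (v + 1) ≤ A ^ (v + 1) / n := by
  have hn' : (0 : ℝ) < n := by exact_mod_cast hn
  rw [le_div_iff₀ hn']
  calc (n : ℝ) ^ v * p ^ (v + 1) * n = (n * p) ^ (v + 1) := by ring
    _ ≤ A ^ (v + 1) := pow_le_pow_left₀ (by positivity) hA _

theorem card_union_le' (k l : ℕ) (f : ZMod (k + 5) ↪ Fin n) (g : ZMod (l + 5) ↪ Fin n) :
    (Vt (⟨k, f⟩ : Idx n) ∪ Vt (⟨l, g⟩ : Idx n)).card < k + l + 11 := by
  have h1 := card_union_le (Vt (⟨k, f⟩ : Idx n)) (Vt (⟨l, g⟩ : Idx n))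
  have h2 : (Vt (⟨k, f⟩ : Idx n)).card = k + 5 := card_vs f.injective
  have h3 : (Vt (⟨l, g⟩ : Idx n)).card = l + 5 := card_vs g.injective
  omega

theorem sum3 {A : ℝ} (hn : 0 < n) (h0 : 0 < p) (hA : (n : ℝ) * p ≤ A) (K : ℕ) :
    ∑ i ∈ S n K, ∑ j ∈ S n K, p ^ ((Vt i ∪ Vt j).card + 1) ≤ Cc K A / n := by
  rw [S, sum_sigma, Cc, sum_div]
  refine sum_le_sum fun k _ => ?_
  have h1 : ∑ f : ZMod (k + 5) ↪ Fin n, ∑ j ∈ (range K).sigma fun l =>
      (univ : Finset (ZMod (l + 5) ↪ Fin n)), p ^ ((Vt (⟨k, f⟩ : Idx n) ∪ Vt j).card + 1) =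
      ∑ l ∈ range K, ∑ f : ZMod (k + 5) ↪ Fin n, ∑ g : ZMod (l + 5) ↪ Fin n,
        p ^ ((Vt (⟨k, f⟩ : Idx n) ∪ Vt (⟨l, g⟩ : Idx n)).card + 1) := by
    rw [sum_comm]
    simp only [sum_sigma]
    refine sum_congr rfl fun l _ => ?_
    rw [sum_comm]
  refine le_trans (le_of_eq h1) ?_
  rw [sum_div]
  refine sum_le_sum fun l _ => ?_
  have h2 : ∑ f : ZMod (k + 5) ↪ Fin n, ∑ g : ZMod (l + 5) ↪ Fin n,
        p ^ ((Vt (⟨k, f⟩ : Idx n) ∪ Vt (⟨l, g⟩ : Idx n)).card + 1) =
      ∑ x : (ZMod (k + 5) ↪ Fin n) × (ZMod (l + 5) ↪ Fin n),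
        p ^ ((Vt (⟨k, x.1⟩ : Idx n) ∪ Vt (⟨l, x.2⟩ : Idx n)).card + 1) := by
    rw [Fintype.sum_prod_type]
  rw [h2, ← sum_fiberwise_of_maps_to (s := univ) (t := range (k + l + 11))
    (g := fun x : (ZMod (k + 5) ↪ Fin n) × (ZMod (l + 5) ↪ Fin n) =>
      (Vt (⟨k, x.1⟩ : Idx n) ∪ Vt (⟨l, x.2⟩ : Idx n)).card)
    (fun x _ => mem_range.2 (card_union_le' k l x.1 x.2)), sum_div]
  refine sum_le_sum fun v _ => ?_
  have h3 : ∑ x ∈ (univ : Finset ((ZMod (k + 5) ↪ Fin n) × (ZMod (l + 5) ↪ Fin n))).filter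
      (fun x => (Vt (⟨k, x.1⟩ : Idx n) ∪ Vt (⟨l, x.2⟩ : Idx n)).card = v),
        p ^ ((Vt (⟨k, x.1⟩ : Idx n) ∪ Vt (⟨l, x.2⟩ : Idx n)).card + 1) =
      ∑ x ∈ (univ : Finset ((ZMod (k + 5) ↪ Fin n) × (ZMod (l + 5) ↪ Fin n))).filter
      (fun x => (Vt (⟨k, x.1⟩ : Idx n) ∪ Vt (⟨l, x.2⟩ : Idx n)).card = v), p ^ (v + 1) :=
    sum_congr rfl fun x hx => by rw [(mem_filter.1 hx).2]
  rw [h3, sum_const, nsmul_eq_mul]
  have h4 : (((univ : Finset ((ZMod (k + 5) ↪ Fin n) × (ZMod (l + 5) ↪ Fin n))).filter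
      (fun x => (Vt (⟨k, x.1⟩ : Idx n) ∪ Vt (⟨l, x.2⟩ : Idx n)).card = v)).card : ℝ) ≤
      (n : ℝ) ^ v * ((v : ℝ) ^ (k + 5) * (v : ℝ) ^ (l + 5)) := by
    have := card_pairs (n := n) k l v
    exact_mod_cast this
  calc _ ≤ (n : ℝ) ^ v * ((v : ℝ) ^ (k + 5) * (v : ℝ) ^ (l + 5)) * p ^ (v + 1) :=
        mul_le_mul_of_nonneg_right h4 (by positivity)
    _ = ((v : ℝ) ^ (k + 5) * (v : ℝ) ^ (l + 5)) * ((n : ℝ) ^ v * p ^ (v + 1)) := by ring
    _ ≤ ((v : ℝ) ^ (k + 5) * (v : ℝ) ^ (l + 5)) * (A ^ (v + 1) / n) :=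
        mul_le_mul_of_nonneg_left (npow hn h0 hA v) (by positivity)
    _ = _ := by ring

theorem second_moment (h0b : ST_P0b) (h0c : ST_P0c) {A : ℝ} (hn : 0 < n) (h0 : 0 < p)
    (h1 : p ≤ 1) (hA : (n : ℝ) * p ≤ A) (K : ℕ) :
    Ex n p (fun G => X K G * X K G) ≤ mu n K p ^ 2 + mu n K p + Cc K A / n := by
  rw [Ex_XX h0b h0c]
  have hs : ∀ i ∈ S n K, ∑ j ∈ S n K, w i.1 * w j.1 * p ^ (E i ∪ E j).card ≤
      (w i.1 * p ^ (i.1 + 5)) * mu n K p + w i.1 * p ^ (i.1 + 5) +
        ∑ j ∈ S n K, p ^ ((Vt i ∪ Vt j).card + 1) := by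
    intro i _
    have e1 : ∀ j ∈ S n K, w i.1 * w j.1 * p ^ (E i ∪ E j).card ≤
        (w i.1 * p ^ (i.1 + 5)) * (w j.1 * p ^ (j.1 + 5)) +
        (w i.1 * p ^ (i.1 + 5)) * (w j.1 * (if E j = E i then 1 else 0)) +
        p ^ ((Vt i ∪ Vt j).card + 1) := by
      intro j _
      have hw : 0 ≤ w i.1 * w j.1 := mul_nonneg (w_pos _).le (w_pos _).le
      have hw1 : w i.1 * w j.1 ≤ 1 := mul_le_one₀ (w_le _) (w_pos _).le (w_le _)
      have h2 := mul_le_mul_of_nonneg_left (pow_split h0.le h1 i j) hw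
      have h3 : w i.1 * w j.1 * p ^ ((Vt i ∪ Vt j).card + 1) ≤ p ^ ((Vt i ∪ Vt j).card + 1) :=
        mul_le_of_le_one_left (by positivity) hw1
      refine h2.trans ?_
      split_ifs
      · nlinarith [h3]
      · nlinarith [h3]
    refine (sum_le_sum e1).trans ?_
    rw [sum_add_distrib, sum_add_distrib, ← mul_sum, ← mul_sum]
    have h4 := sum_w_same K i
    have h5 : 0 ≤ w i.1 * p ^ (i.1 + 5) := mul_nonneg (w_pos _).le (by positivity)
    have h6 := mul_le_mul_of_nonneg_left h4 h5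
    rw [mul_one] at h6
    have h7 : ∑ j ∈ S n K, w j.1 * p ^ (j.1 + 5) = mu n K p := rfl
    rw [h7]
    linarith
  refine (sum_le_sum hs).trans ?_
  rw [sum_add_distrib, sum_add_distrib, ← sum_mul]
  have h7 : ∑ j ∈ S n K, w j.1 * p ^ (j.1 + 5) = mu n K p := rfl
  rw [h7]
  have h8 := sum3 hn h0 hA K
  nlinarith [h8]

/-- Chebyshev -/
theorem prob_X_zero (h0a : ST_P0a) (h0b : ST_P0b) (h0c : ST_P0c) {A : ℝ} (hn : 0 < n)
    (h0 : 0 < p) (h1 : p ≤ 1) (hA : (n : ℝ) * p ≤ A) (K : ℕ) :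
    Ex n p (fun G => if X K G = 0 then 1 else 0) * mu n K p ^ 2 ≤ mu n K p + Cc K A / n := by
  have e1 : Ex n p (fun G => mu n K p ^ 2 * (if X K G = 0 then 1 else 0)) ≤
      Ex n p (fun G => X K G * X K G + (-2 * mu n K p) * X K G + mu n K p ^ 2 * 1) := by
    apply Ex_mono' h0.le h1
    intro G
    split_ifs with h
    · rw [h]; linarith
    · nlinarith [sq_nonneg (X K G - mu n K p)]
  rw [Ex_mul', Ex_add', Ex_add', Ex_mul', Ex_mul', h0a, Ex_X h0b h0c] at e1
  have := second_moment h0b h0c hn h0 h1 hA K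
  nlinarith [e1, this]

/-! ### Good cycles -/

theorem good_conf {k : ℕ} (f : ZMod (k + 5) ↪ Fin n) (G : SimpleGraph (Fin n))
    (he : ∀ e ∈ ed (k := k) f, e ∈ G.edgeSet)
    (hch : ∀ a b : ZMod (k + 5), Far a b → ¬ G.Adj (f a) (f b))
    (hout : ∀ z, z ∉ vs (k := k) f → ∀ a b : ZMod (k + 5), Far a b →
      ¬ (G.Adj z (f a) ∧ G.Adj z (f b))) :
    GoodConf G (k + 5) (fun a => {f a}) where
  m5 := by omega
  ne i := singleton_nonempty _
  disj i j hij x hx hx' := by
    rw [mem_singleton] at hx hx'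
    exact hij (f.injective (hx.symm.trans hx'))
  clique i x hx y hy hxy := by
    rw [mem_singleton] at hx hy
    exact absurd (hx.trans hy.symm) hxy
  next i x hx y hy := by
    rw [mem_singleton] at hx hy
    subst hx hy
    have := he (eg f i) (mem_ed.2 ⟨i, rfl⟩)
    rwa [eg, SimpleGraph.mem_edgeSet] at this
  mix i j l hij hjl x hx y hy := by
    rw [mem_singleton] at hx hy
    subst hx hy
    exact ⟨f j, mem_singleton_self _, hch i j hij, hch j l hjl⟩
  nbhd i j hij z z' h1 h2 h3 h4 hzz := by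
    exfalso
    have a1 := h1 (f i) (mem_singleton_self _)
    have a2 := h2 (f j) (mem_singleton_self _)
    have a3 := h3 (f i) (mem_singleton_self _)
    have a4 := h4 (f j) (mem_singleton_self _)
    have hz : z ∈ vs (k := k) f := by
      by_contra hz
      exact hout z hz i j hij ⟨a1, a2⟩
    have hz' : z' ∈ vs (k := k) f := by
      by_contra hz
      exact hout z' hz i j hij ⟨a3, a4⟩
    obtain ⟨a, rfl⟩ := mem_vs.1 hz
    obtain ⟨b, rfl⟩ := mem_vs.1 hz'
    have key : ∀ c d : ZMod (k + 5), G.Adj (f c) (f d) → c = d + 1 ∨ c = d - 1 := by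
      intro c d h
      by_contra hcon
      push Not at hcon
      refine hch c d ⟨?_, ?_, hcon.1⟩ h
      · rintro rfl; exact G.loopless.irrefl _ h
      · rintro rfl; exact hcon.2 (by ring)
    have hne : j ≠ i := hij.1
    have t2 := two_ne k
    have t4 := four_ne k
    apply hzz
    congr 1
    rcases key a i a1 with rfl | rfl <;> rcases key b i a3 with rfl | rfl
    · rfl
    · exfalso
      rcases key _ j a2 with h | h
      · exact hne (by simpa using h.symm)
      · rcases key _ j a4 with h' | h'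
        · apply t4
          have : j = i + 2 := by
            calc j = (j - 1) + 1 := by ring
              _ = i + 2 := by rw [← h]; ring
          rw [this] at h'
          have h5 : i + 4 = i + 0 := by
            calc i + 4 = (i + 2 + 1) + 1 := by ring
              _ = i + 0 := by rw [← h']; ring
          exact add_left_cancel h5
        · apply t2
          have h5 : i + 2 = i + 0 := by
            calc i + 2 = (i + 1) + 1 := by ring
              _ = (i - 1) + 1 := by rw [h, h']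
              _ = i + 0 := by ring
          exact add_left_cancel h5
    · exfalso
      rcases key _ j a2 with h | h
      · rcases key _ j a4 with h' | h'
        · apply t2
          have h5 : i + 2 = i + 0 := by
            calc i + 2 = (i + 1) + 1 := by ring
              _ = (i - 1) + 1 := by rw [h', h]
              _ = i + 0 := by ring
          exact add_left_cancel h5
        · apply t4
          have : j = i - 2 := by
            calc j = (j + 1) - 1 := by ring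
              _ = i - 2 := by rw [← h]; ring
          rw [this] at h'
          have h5 : i + 4 = i + 0 := by
            calc i + 4 = (i + 1) + 3 := by ring
              _ = (i - 2 - 1) + 3 := by rw [h']
              _ = i + 0 := by ring
          exact add_left_cancel h5
      · exact hne (by
          calc j = (j - 1) + 1 := by ring
            _ = (i - 1) + 1 := by rw [h]
            _ = i := by ring)
    · rfl

/-- edges of a chord event -/
noncomputable def Ec (i : Idx n) (a b : ZMod (i.1 + 5)) : Finset (Sym2 (Fin n)) :=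
  insert s(i.2 a, i.2 b) (E i)

/-- edges of an outer vertex event -/
noncomputable def Eo (i : Idx n) (z : Fin n) (a b : ZMod (i.1 + 5)) : Finset (Sym2 (Fin n)) :=
  insert s(z, i.2 a) (insert s(z, i.2 b) (E i))

theorem card_Ec (i : Idx n) {a b : ZMod (i.1 + 5)} (h : Far a b) :
    (Ec i a b).card = i.1 + 6 := by
  rw [Ec, card_insert_of_notMem, cardE]
  intro hm
  obtain ⟨c, hc⟩ := mem_ed.1 hm
  rw [eg, Sym2.eq_iff] at hc
  rcases hc with ⟨h1, h2⟩ | ⟨h1, h2⟩
  · exact h.2.1 (by rw [← i.2.injective h1, i.2.injective h2])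
  · exact h.2.2 (by rw [← i.2.injective h1, i.2.injective h2])

theorem Ec_nd (i : Idx n) {a b : ZMod (i.1 + 5)} (h : Far a b) :
    ∀ e ∈ Ec i a b, ¬ e.IsDiag := by
  intro e he
  rcases mem_insert.1 he with rfl | he
  · rw [Sym2.mk_isDiag_iff]
    intro h2
    exact h.1 (i.2.injective h2).symm
  · exact ed_not_diag i.2.injective he

theorem card_Eo (i : Idx n) {z : Fin n} (hz : z ∉ Vt i) {a b : ZMod (i.1 + 5)} (h : Far a b) :
    (Eo i z a b).card = i.1 + 7 := by
  have hh : ∀ c, s(z, i.2 c) ∉ E i := by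
    intro c hm
    exact hz (mem_of_mem_ed hm (Sym2.mem_mk_left _ _))
  rw [Eo, card_insert_of_notMem, card_insert_of_notMem (hh b), cardE]
  intro hm
  rcases mem_insert.1 hm with h1 | h1
  · have := Sym2.congr_right.1 h1
    exact h.1 (i.2.injective this).symm
  · exact hh a h1

theorem Eo_nd (i : Idx n) {z : Fin n} (hz : z ∉ Vt i) {a b : ZMod (i.1 + 5)} :
    ∀ e ∈ Eo i z a b, ¬ e.IsDiag := by
  intro e he
  rcases mem_insert.1 he with rfl | he
  · rw [Sym2.mk_isDiag_iff]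
    intro h2
    exact hz (mem_vs.2 ⟨a, h2.symm⟩)
  · rcases mem_insert.1 he with rfl | he
    · rw [Sym2.mk_isDiag_iff]
      intro h2
      exact hz (mem_vs.2 ⟨b, h2.symm⟩)
    · exact ed_not_diag i.2.injective he

/-- the number of bad events -/
noncomputable def Bd (K : ℕ) (G : SimpleGraph (Fin n)) : ℝ :=
  ∑ i ∈ S n K, ((∑ x ∈ (univ : Finset (ZMod (i.1 + 5) × ZMod (i.1 + 5))).filter
      (fun x => Far x.1 x.2), iF (Ec i x.1 x.2) G) +
    ∑ z ∈ (univ : Finset (Fin n)).filter (fun z => z ∉ Vt i),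
      ∑ x ∈ (univ : Finset (ZMod (i.1 + 5) × ZMod (i.1 + 5))).filter
      (fun x => Far x.1 x.2), iF (Eo i z x.1 x.2) G)

theorem one_le_sum' {ι : Type*} (s : Finset ι) (f : ι → ℝ) (hf : ∀ x, 0 ≤ f x) (a : ι)
    (ha : a ∈ s) (h : 1 ≤ f a) : 1 ≤ ∑ x ∈ s, f x :=
  h.trans (single_le_sum (fun x _ => hf x) ha)

theorem iF_eq_one {F : Finset (Sym2 (Fin n))} {G : SimpleGraph (Fin n)}
    (h : ∀ e ∈ F, e ∈ G.edgeSet) : iF F G = 1 := by
  rw [iF, if_pos h]

theorem pointwise (K : ℕ) (G : SimpleGraph (Fin n)) :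
    (if HasConf G then (0 : ℝ) else 1) ≤ (if X K G = 0 then 1 else 0) + Bd K G := by
  have hnn : ∀ i ∈ S n K, 0 ≤ ((∑ x ∈ (univ : Finset (ZMod (i.1 + 5) × ZMod (i.1 + 5))).filter
      (fun x => Far x.1 x.2), iF (Ec i x.1 x.2) G) +
    ∑ z ∈ (univ : Finset (Fin n)).filter (fun z => z ∉ Vt i),
      ∑ x ∈ (univ : Finset (ZMod (i.1 + 5) × ZMod (i.1 + 5))).filter
      (fun x => Far x.1 x.2), iF (Eo i z x.1 x.2) G) := by
    intro i _
    exact add_nonneg (sum_nonneg fun x _ => iF_nonneg _ _)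
      (sum_nonneg fun z _ => sum_nonneg fun x _ => iF_nonneg _ _)
  have hB : 0 ≤ Bd K G := sum_nonneg hnn
  by_cases hc : HasConf G
  · rw [if_pos hc]
    split_ifs <;> linarith
  · rw [if_neg hc]
    by_cases hX : X K G = 0
    · rw [if_pos hX]; linarith
    · rw [if_neg hX, zero_add]
      have : ∃ i ∈ S n K, iF (E i) G ≠ 0 := by
        by_contra hcon
        push Not at hcon
        apply hX
        rw [X]
        exact sum_eq_zero fun i hi => by rw [hcon i hi, mul_zero]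
      obtain ⟨i, hi, hiF⟩ := this
      have he : ∀ e ∈ E i, e ∈ G.edgeSet := by
        by_contra h
        exact hiF (by rw [iF, if_neg h])
      refine le_trans ?_ (single_le_sum hnn hi)
      by_contra hlt
      push Not at hlt
      apply hc
      refine ⟨i.1 + 5, fun a => {i.2 a}, good_conf i.2 G he ?_ ?_⟩
      · intro a b hab hadj
        have h1 : (1 : ℝ) ≤ ∑ x ∈ (univ : Finset (ZMod (i.1 + 5) × ZMod (i.1 + 5))).filter
            (fun x => Far x.1 x.2), iF (Ec i x.1 x.2) G := by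
          have h2 : iF (Ec i a b) G = 1 := by
            apply iF_eq_one
            intro e he'
            rw [Ec, mem_insert] at he'
            rcases he' with rfl | he'
            · exact hadj
            · exact he e he'
          have hab' : (a, b) ∈ (univ : Finset (ZMod (i.1 + 5) × ZMod (i.1 + 5))).filter
            (fun x => Far x.1 x.2) := by
            rw [mem_filter]
            exact ⟨mem_univ _, hab⟩
          exact one_le_sum' _ _ (fun x => iF_nonneg _ _) (a, b) hab' h2.ge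
        have h3 : 0 ≤ ∑ z ∈ (univ : Finset (Fin n)).filter (fun z => z ∉ Vt i),
          ∑ x ∈ (univ : Finset (ZMod (i.1 + 5) × ZMod (i.1 + 5))).filter
          (fun x => Far x.1 x.2), iF (Eo i z x.1 x.2) G :=
          sum_nonneg fun z _ => sum_nonneg fun x _ => iF_nonneg _ _
        linarith
      · rintro z hz a b hab ⟨hadj1, hadj2⟩
        have h1 : (1 : ℝ) ≤ ∑ z ∈ (univ : Finset (Fin n)).filter (fun z => z ∉ Vt i),
          ∑ x ∈ (univ : Finset (ZMod (i.1 + 5) × ZMod (i.1 + 5))).filter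
          (fun x => Far x.1 x.2), iF (Eo i z x.1 x.2) G := by
          have h2 : iF (Eo i z a b) G = 1 := by
            apply iF_eq_one
            intro e he'
            rw [Eo, mem_insert, mem_insert] at he'
            rcases he' with rfl | rfl | he'
            · exact hadj1
            · exact hadj2
            · exact he e he'
          have hab' : (a, b) ∈ (univ : Finset (ZMod (i.1 + 5) × ZMod (i.1 + 5))).filter
            (fun x => Far x.1 x.2) := by
            rw [mem_filter]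
            exact ⟨mem_univ _, hab⟩
          have hz' : z ∈ (univ : Finset (Fin n)).filter (fun z => z ∉ Vt i) := by
            rw [mem_filter]
            exact ⟨mem_univ _, hz⟩
          refine one_le_sum' _ _ (fun z => sum_nonneg fun x _ => iF_nonneg _ _) z hz' ?_
          exact one_le_sum' _ _ (fun x => iF_nonneg _ _) (a, b) hab' h2.ge
        have h3 : 0 ≤ ∑ x ∈ (univ : Finset (ZMod (i.1 + 5) × ZMod (i.1 + 5))).filter
            (fun x => Far x.1 x.2), iF (Ec i x.1 x.2) G := sum_nonneg fun x _ => iF_nonneg _ _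
        linarith

/-- the second constant -/
noncomputable def Dc (K : ℕ) (A : ℝ) : ℝ :=
  ∑ k ∈ range K, ((k : ℝ) + 5) ^ 2 * (A ^ (k + 6) + A ^ (k + 7))

theorem card_emb_le (k : ℕ) : (Fintype.card (ZMod (k + 5) ↪ Fin n) : ℝ) ≤ (n : ℝ) ^ (k + 5) := by
  rw [Fintype.card_embedding_eq, ZMod.card, Fintype.card_fin]
  exact_mod_cast Nat.descFactorial_le_pow n (k + 5)

theorem Ex_Bd (h0b : ST_P0b) (h0c : ST_P0c) {A : ℝ} (hn : 0 < n) (h0 : 0 < p)
    (hA : (n : ℝ) * p ≤ A) (K : ℕ) : Ex n p (Bd K) ≤ Dc K A / n := by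
  have hn' : (0 : ℝ) < n := by exact_mod_cast hn
  have e0 : (Bd K : SimpleGraph (Fin n) → ℝ) = fun G =>
    ∑ i ∈ S n K, ((∑ x ∈ (univ : Finset (ZMod (i.1 + 5) × ZMod (i.1 + 5))).filter
      (fun x => Far x.1 x.2), iF (Ec i x.1 x.2) G) +
    ∑ z ∈ (univ : Finset (Fin n)).filter (fun z => z ∉ Vt i),
      ∑ x ∈ (univ : Finset (ZMod (i.1 + 5) × ZMod (i.1 + 5))).filter
      (fun x => Far x.1 x.2), iF (Eo i z x.1 x.2) G) := rfl
  rw [e0, Ex_sum']
  have e1 : ∀ i ∈ S n K, Ex n p (fun G =>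
      ((∑ x ∈ (univ : Finset (ZMod (i.1 + 5) × ZMod (i.1 + 5))).filter
      (fun x => Far x.1 x.2), iF (Ec i x.1 x.2) G) +
    ∑ z ∈ (univ : Finset (Fin n)).filter (fun z => z ∉ Vt i),
      ∑ x ∈ (univ : Finset (ZMod (i.1 + 5) × ZMod (i.1 + 5))).filter
      (fun x => Far x.1 x.2), iF (Eo i z x.1 x.2) G)) ≤
      ((i.1 : ℝ) + 5) ^ 2 * (p ^ (i.1 + 6) + n * p ^ (i.1 + 7)) := by
    intro i _
    rw [Ex_add', Ex_sum', Ex_sum']
    have hc : (((univ : Finset (ZMod (i.1 + 5) × ZMod (i.1 + 5))).filter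
      (fun x => Far x.1 x.2)).card : ℝ) ≤ ((i.1 : ℝ) + 5) ^ 2 := by
      have : ((univ : Finset (ZMod (i.1 + 5) × ZMod (i.1 + 5))).filter
        (fun x => Far x.1 x.2)).card ≤ (i.1 + 5) ^ 2 := by
        refine (card_filter_le _ _).trans ?_
        rw [card_univ, Fintype.card_prod, ZMod.card, sq]
      exact_mod_cast this
    have hz : (((univ : Finset (Fin n)).filter (fun z => z ∉ Vt i)).card : ℝ) ≤ n := by
      have : ((univ : Finset (Fin n)).filter (fun z => z ∉ Vt i)).card ≤ n := by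
        refine (card_filter_le _ _).trans ?_
        rw [card_univ, Fintype.card_fin]
      exact_mod_cast this
    have s1 : ∑ x ∈ (univ : Finset (ZMod (i.1 + 5) × ZMod (i.1 + 5))).filter
      (fun x => Far x.1 x.2), Ex n p (iF (Ec i x.1 x.2)) ≤
        ((i.1 : ℝ) + 5) ^ 2 * p ^ (i.1 + 6) := by
      have t1 : ∀ x ∈ (univ : Finset (ZMod (i.1 + 5) × ZMod (i.1 + 5))).filter
          (fun x => Far x.1 x.2), Ex n p (iF (Ec i x.1 x.2)) = p ^ (i.1 + 6) := by
        intro x hx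
        rw [Ex_iF h0b h0c (Ec i x.1 x.2) (Ec_nd i (mem_filter.1 hx).2),
          card_Ec i (mem_filter.1 hx).2]
      rw [sum_congr rfl t1, sum_const, nsmul_eq_mul]
      exact mul_le_mul_of_nonneg_right hc (by positivity)
    have s2 : ∑ z ∈ (univ : Finset (Fin n)).filter (fun z => z ∉ Vt i), Ex n p (fun G =>
      ∑ x ∈ (univ : Finset (ZMod (i.1 + 5) × ZMod (i.1 + 5))).filter
      (fun x => Far x.1 x.2), iF (Eo i z x.1 x.2) G) ≤
        n * (((i.1 : ℝ) + 5) ^ 2 * p ^ (i.1 + 7)) := by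
      have s3 : ∀ z ∈ (univ : Finset (Fin n)).filter (fun z => z ∉ Vt i), Ex n p (fun G =>
        ∑ x ∈ (univ : Finset (ZMod (i.1 + 5) × ZMod (i.1 + 5))).filter
        (fun x => Far x.1 x.2), iF (Eo i z x.1 x.2) G) ≤
          (((i.1 : ℝ) + 5) ^ 2 * p ^ (i.1 + 7)) := by
        intro z hz
        have t1 : ∀ x ∈ (univ : Finset (ZMod (i.1 + 5) × ZMod (i.1 + 5))).filter
            (fun x => Far x.1 x.2), Ex n p (iF (Eo i z x.1 x.2)) = p ^ (i.1 + 7) := by
          intro x hx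
          rw [Ex_iF h0b h0c (Eo i z x.1 x.2) (Eo_nd i (mem_filter.1 hz).2),
            card_Eo i (mem_filter.1 hz).2 (mem_filter.1 hx).2]
        rw [Ex_sum', sum_congr rfl t1, sum_const, nsmul_eq_mul]
        exact mul_le_mul_of_nonneg_right hc (by positivity)
      refine (sum_le_sum s3).trans ?_
      rw [sum_const, nsmul_eq_mul]
      exact mul_le_mul_of_nonneg_right hz (by positivity)
    calc _ ≤ ((i.1 : ℝ) + 5) ^ 2 * p ^ (i.1 + 6) + n * (((i.1 : ℝ) + 5) ^ 2 * p ^ (i.1 + 7)) :=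
          add_le_add s1 s2
      _ = _ := by ring
  refine (sum_le_sum e1).trans ?_
  rw [S, sum_sigma, Dc, sum_div]
  refine sum_le_sum fun k _ => ?_
  simp only [sum_const, card_univ, nsmul_eq_mul]
  have hk : 0 ≤ ((k : ℝ) + 5) ^ 2 * (p ^ (k + 6) + n * p ^ (k + 7)) := by positivity
  refine (mul_le_mul_of_nonneg_right (card_emb_le (n := n) k) hk).trans ?_
  have g1 := npow hn h0 hA (k + 5)
  have g2 : (n : ℝ) ^ (k + 5) * (n * p ^ (k + 7)) ≤ A ^ (k + 7) / n := by
    have := npow hn h0 hA (k + 6)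
    calc (n : ℝ) ^ (k + 5) * (n * p ^ (k + 7)) = (n : ℝ) ^ (k + 6) * p ^ (k + 6 + 1) := by ring
      _ ≤ _ := this
  have g3 : (n : ℝ) ^ (k + 5) * p ^ (k + 6) ≤ A ^ (k + 6) / n := g1
  calc (n : ℝ) ^ (k + 5) * (((k : ℝ) + 5) ^ 2 * (p ^ (k + 6) + n * p ^ (k + 7)))
      = ((k : ℝ) + 5) ^ 2 * ((n : ℝ) ^ (k + 5) * p ^ (k + 6) +
        (n : ℝ) ^ (k + 5) * (n * p ^ (k + 7))) := by ring
    _ ≤ ((k : ℝ) + 5) ^ 2 * (A ^ (k + 6) / n + A ^ (k + 7) / n) :=
        mul_le_mul_of_nonneg_left (add_le_add g3 g2) (by positivity)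
    _ = _ := by ring

/-! ### Lower bound for the mean -/

theorem mu_lower (h0 : 0 < p) (h1 : 1 ≤ (n : ℝ) * p) (K : ℕ)
    (hn : 2 * (K + 5) ^ 2 ≤ n) : ∑ k ∈ range K, 1 / (4 * ((k : ℝ) + 5)) ≤ mu n K p := by
  have hn0 : 0 < n := lt_of_lt_of_le (by positivity) hn
  have hn' : (0 : ℝ) < n := by exact_mod_cast hn0
  rw [mu, S, sum_sigma]
  refine sum_le_sum fun k hk => ?_
  have hkK : k < K := mem_range.1 hk
  simp only [sum_const, card_univ, nsmul_eq_mul]
  rw [Fintype.card_embedding_eq, ZMod.card, Fintype.card_fin]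
  have hd : ((n + 1 - (k + 5) : ℕ) : ℝ) ^ (k + 5) ≤ (n.descFactorial (k + 5) : ℝ) := by
    exact_mod_cast Nat.pow_sub_le_descFactorial n (k + 5)
  have hle : k + 5 ≤ n := by nlinarith
  have hsub : ((n + 1 - (k + 5) : ℕ) : ℝ) = (n : ℝ) + 1 - ((k : ℝ) + 5) := by
    rw [Nat.cast_sub (by omega)]; push_cast; ring
  have hb : (1 : ℝ) / 2 ≤ (n.descFactorial (k + 5) : ℝ) * p ^ (k + 5) := by
    have hx : 1 + (-(((k : ℝ) + 5) / n)) ≤ ((n + 1 - (k + 5) : ℕ) : ℝ) * p := by
      rw [hsub]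
      have hp : 1 / (n : ℝ) ≤ p := by
        rw [div_le_iff₀ hn']; linarith
      have hk5 : ((k : ℝ) + 5) ≤ n := by exact_mod_cast hle
      calc 1 + (-(((k : ℝ) + 5) / n)) = ((n : ℝ) - (k + 5)) * (1 / n) := by
            field_simp
            ring
        _ ≤ ((n : ℝ) - (k + 5)) * p := mul_le_mul_of_nonneg_left hp (by linarith)
        _ ≤ _ := by nlinarith
    have hk5 : ((k : ℝ) + 5) ≤ n := by exact_mod_cast hle
    have hkn : ((k : ℝ) + 5) / n ≤ 1 := by rw [div_le_one hn']; exact hk5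
    have hbern := one_add_mul_le_pow (a := -(((k : ℝ) + 5) / n)) (by linarith) (k + 5)
    have hpow : (1 + (-(((k : ℝ) + 5) / n))) ^ (k + 5) ≤
        (((n + 1 - (k + 5) : ℕ) : ℝ) * p) ^ (k + 5) := pow_le_pow_left₀ (by linarith) hx _
    rw [mul_pow] at hpow
    have h2 : ((n + 1 - (k + 5) : ℕ) : ℝ) ^ (k + 5) * p ^ (k + 5) ≤
        (n.descFactorial (k + 5) : ℝ) * p ^ (k + 5) :=
      mul_le_mul_of_nonneg_right hd (by positivity)
    have h3 : ((k + 5 : ℕ) : ℝ) * (-(((k : ℝ) + 5) / n)) ≥ -(1 / 2) := by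
      push_cast
      have : ((k : ℝ) + 5) * (((k : ℝ) + 5) / n) ≤ 1 / 2 := by
        rw [mul_div_assoc', div_le_iff₀ hn']
        have h4 : (2 : ℝ) * ((K : ℝ) + 5) ^ 2 ≤ n := by exact_mod_cast hn
        have h5 : (k : ℝ) ≤ K := by exact_mod_cast hkK.le
        have h6 : (0 : ℝ) ≤ k := Nat.cast_nonneg k
        nlinarith
      linarith
    linarith
  have hw : 1 / (4 * ((k : ℝ) + 5)) = w k * (1 / 2) := by
    unfold w; field_simp; norm_num
  rw [hw]
  calc w k * (1 / 2) ≤ w k * ((n.descFactorial (k + 5) : ℝ) * p ^ (k + 5)) :=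
        mul_le_mul_of_nonneg_left hb (w_pos k).le
    _ = _ := by ring

theorem exists_K (M : ℝ) : ∃ K : ℕ, M ≤ ∑ k ∈ range K, 1 / (4 * ((k : ℝ) + 5)) := by
  have h := Real.tendsto_sum_range_one_div_nat_succ_atTop
  obtain ⟨K, hK⟩ := (h.eventually_ge_atTop (20 * M)).exists
  refine ⟨K, ?_⟩
  have h2 : (1 / 20) * ∑ i ∈ range K, (1 / ((i : ℝ) + 1)) ≤
      ∑ k ∈ range K, 1 / (4 * ((k : ℝ) + 5)) := by
    rw [mul_sum]
    refine sum_le_sum fun k _ => ?_
    have hk : (0 : ℝ) ≤ k := Nat.cast_nonneg k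
    rw [← mul_div_mul_comm, one_mul]
    apply one_div_le_one_div_of_le
    · positivity
    · linarith
  linarith

/-- module P5 -/
theorem p5 (h0a : ST_P0a) (h0b : ST_P0b) (h0c : ST_P0c) : ST_P5 := by
  intro A η hη
  obtain ⟨K, hK⟩ := exists_K (3 / η + 1)
  obtain ⟨n1, hn1⟩ := exists_nat_ge (3 * |Cc K A| / η)
  obtain ⟨n2, hn2⟩ := exists_nat_ge (3 * |Dc K A| / η)
  refine ⟨max (2 * (K + 5) ^ 2) (max n1 n2) + 1, ?_⟩
  intro n p hn hp0 hp1 h1 hA
  have hnK : 2 * (K + 5) ^ 2 ≤ n := by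
    have := le_max_left (2 * (K + 5) ^ 2) (max n1 n2)
    omega
  have hnn1 : n1 ≤ n := by
    have := (le_max_left n1 n2).trans (le_max_right (2 * (K + 5) ^ 2) (max n1 n2))
    omega
  have hnn2 : n2 ≤ n := by
    have := (le_max_right n1 n2).trans (le_max_right (2 * (K + 5) ^ 2) (max n1 n2))
    omega
  have hn0 : 0 < n := by omega
  have hn' : (0 : ℝ) < n := by exact_mod_cast hn0
  have hC : Cc K A / n ≤ η / 3 := by
    rw [div_le_iff₀ hn']
    have h3 : (n1 : ℝ) ≤ n := by exact_mod_cast hnn1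
    have h4 : 3 * |Cc K A| / η ≤ n := hn1.trans h3
    rw [div_le_iff₀ hη] at h4
    have := le_abs_self (Cc K A)
    linarith
  have hD : Dc K A / n ≤ η / 3 := by
    rw [div_le_iff₀ hn']
    have h3 : (n2 : ℝ) ≤ n := by exact_mod_cast hnn2
    have h4 : 3 * |Dc K A| / η ≤ n := hn2.trans h3
    rw [div_le_iff₀ hη] at h4
    have := le_abs_self (Dc K A)
    linarith
  have hmu : 3 / η + 1 ≤ mu n K p := hK.trans (mu_lower hp0 h1 K hnK)
  have h3η : 0 < 3 / η := by positivity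
  have hmu1 : 1 ≤ mu n K p := by linarith
  have hX := prob_X_zero h0a h0b h0c hn0 hp0 hp1.le hA K
  set q := Ex n p (fun G => if X K G = 0 then 1 else 0) with hq
  have hqb : q ≤ 2 * η / 3 := by
    by_contra hcon
    push Not at hcon
    have h5 : 2 * η / 3 * mu n K p ^ 2 < q * mu n K p ^ 2 :=
      mul_lt_mul_of_pos_right hcon (by positivity)
    have h6 : mu n K p ≤ η / 3 * mu n K p ^ 2 := by
      have : 3 / η ≤ mu n K p := by linarith
      have h7 : 1 ≤ η / 3 * mu n K p := by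
        have := mul_le_mul_of_nonneg_left this (by positivity : (0 : ℝ) ≤ η / 3)
        have h8 : η / 3 * (3 / η) = 1 := by field_simp
        linarith
      nlinarith
    have h9 : η / 3 ≤ η / 3 * mu n K p ^ 2 := by
      have : 1 ≤ mu n K p ^ 2 := by nlinarith
      nlinarith
    linarith
  have hfin : 1 - gnp n p {G | HasConf G} ≤ q + Ex n p (Bd K) := by
    have e1 : gnp n p {G | HasConf G} = Ex n p (fun G => if HasConf G then 1 else 0) := by
      simp only [gnp, Ex, wt, Set.mem_ofPred_eq, mul_ite, mul_one, mul_zero]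
    have e2 : Ex n p (fun G : SimpleGraph (Fin n) => (if HasConf G then (0 : ℝ) else 1)) +
        gnp n p {G | HasConf G} = 1 := by
      refine Eq.trans ?_ (h0a n p)
      rw [e1, ← Ex_add']
      congr 1
      funext G
      split_ifs <;> norm_num
    have e3 : Ex n p (fun G : SimpleGraph (Fin n) => (if HasConf G then (0 : ℝ) else 1)) ≤
        q + Ex n p (Bd K) := by
      rw [hq, ← Ex_add']
      exact Ex_mono' hp0.le hp1.le (pointwise K)
    linarith
  have hB := Ex_Bd h0b h0c hn0 hp0 hA K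
  linarith

end Pool.Agent.Helper40.RC
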